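import Pool.Agent.N918.MS.Cnt
import Pool.Agent.Results.MP_83e36b_nt.CyclicNormForms

/-!
# Weak approximation for the varieties `N_{Kᵢ/ℚ}(zᵢ) = cᵢ (f(t) + k)`, `Kᵢ` cyclic, along random and metric sequences

The starting theorem `MP_83e36b_nt.CyclicNormForms` (all but `X / (log X) ^ U` of the `|k| ≤ X`, for all `U`) and the
starting library `N918/MS` (random integers and metric sequences avoid sets with a saving of all powers of the logarithm).
-/

set_option autoImplicit false

namespace Pool.Agent.T63.WA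

open Finset Filter MvPolynomial NumberField Module MeasureTheory
open Pool.Agent.N918.MS (AlmostAlways RandomAndMetric randomAndMetric)
open Pool.Agent.Results.MP_83e36b_nt.CyclicNormForms (Admissible RealCond WeakApproximation)

/-- the data: subfields `Kᵢ` of `L`, a polynomial `f`, coefficients `cᵢ`, a finite set `T` of primes and a level `N` -/
structure Data (L : Type) [Field L] [NumberField L] where
  r : ℕ
  s : ℕ
  K : Fin r → IntermediateField ℚ L
  f : MvPolynomial (Fin s) ℤ
  c : Fin r → ℤ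
  T : Finset Nat.Primes
  N : ℕ

variable {L : Type} [Field L] [NumberField L]

/-- The conditions on the fields, the polynomial and the coefficients: the `Kᵢ` are cyclic over `ℚ`, with class numbers
prime to the degrees, and `-1` is a norm or no negative number is a norm (`Admissible`); the degree of `f` is at least two;
the `cᵢ` are not zero. -/
structure Data.Conditions (x : Data L) : Prop where
  fields : ∀ i, Admissible (x.K i)
  degree : 2 ≤ x.f.totalDegree
  nonzero : ∀ i, x.c i ≠ 0

/-- `V_k` satisfies weak approximation of level `N` at `T`, if it satisfies the condition at the real place -/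
def Good (x : Data L) (k : ℤ) : Prop :=
  RealCond x.K x.f x.c k → WeakApproximation x.K x.f x.c x.T x.N k

instance : Countable (Data L) := by
  have := Pool.Agent.N918.MS.finite_if L
  have := Pool.Agent.N918.MS.countable_mv
  have h : Function.Surjective (fun y : (Σ r : ℕ, Σ s : ℕ, (Fin r → IntermediateField ℚ L) × MvPolynomial (Fin s) ℤ ×
      (Fin r → ℤ) × Finset Nat.Primes × ℕ) => (⟨y.1, y.2.1, y.2.2.1, y.2.2.2.1, y.2.2.2.2.1, y.2.2.2.2.2.1, y.2.2.2.2.2.2⟩ :
      Data L)) := fun x => ⟨⟨x.r, x.s, x.K, x.f, x.c, x.T, x.N⟩, rfl⟩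
  exact h.countable

/-- The case in which there is no condition on `T`: all `cᵢ` are `1`, the degree of `f` is prime to the degrees of the
`Kᵢ`, and it is odd or `-1` is a norm from all `Kᵢ`. -/
def Special {r s : ℕ} (K : Fin r → IntermediateField ℚ L) (f : MvPolynomial (Fin s) ℤ) (c : Fin r → ℤ) : Prop :=
  c = (fun _ => 1) ∧ (∀ i, f.totalDegree.Coprime (finrank ℚ (K i))) ∧
    (Odd f.totalDegree ∨ ∀ i, ∃ x : K i, Algebra.norm ℚ x = -1)

theorem main (m : ℕ) [NeZero m] (L : Type) [Field L] [NumberField L] [IsCyclotomicExtension {m} ℚ L] :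
    ∃ T₀ : ∀ {r s : ℕ}, (Fin r → IntermediateField ℚ L) → MvPolynomial (Fin s) ℤ → (Fin r → ℤ) → Finset Nat.Primes,
      (∀ (r s : ℕ) (K : Fin r → IntermediateField ℚ L) (f : MvPolynomial (Fin s) ℤ) (c : Fin r → ℤ),
        Special K f c → T₀ K f c = ∅) ∧
      RandomAndMetric (fun (x : {x : Data L // x.Conditions ∧ T₀ x.K x.f x.c ⊆ x.T}) k => Good x.1 k) := by
  classical
  have h0 : ∀ (r s : ℕ) (K : Fin r → IntermediateField ℚ L) (f : MvPolynomial (Fin s) ℤ) (c : Fin r → ℤ),
      ∃ T₀ : Finset Nat.Primes, (Special K f c → T₀ = ∅) ∧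
      ((∀ i, Admissible (K i)) ∧ 2 ≤ f.totalDegree ∧ (∀ i, c i ≠ 0) →
      ∀ T : Finset Nat.Primes, T₀ ⊆ T → ∀ N : ℕ,
        AlmostAlways (fun k => RealCond K f c k → WeakApproximation K f c T N k)) := by
    intro r s K f c
    by_cases hc : (∀ i, Admissible (K i)) ∧ 2 ≤ f.totalDegree ∧ (∀ i, c i ≠ 0)
    · obtain ⟨h1, h2⟩ := Pool.Agent.Results.MP_83e36b_nt.CyclicNormForms.result m K hc.1 f hc.2.1
      by_cases hs : Special K f c
      · refine ⟨∅, fun _ => rfl, fun _ T _ N => ?_⟩
        obtain ⟨hs1, hs2, hs3⟩ := hs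
        subst hs1
        have h3 : AlmostAlways (fun k => WeakApproximation K f (fun _ => 1) T N k) :=
          AlmostAlways.of_card fun U => by
            obtain ⟨X₀, hX₀⟩ := h2 hs2 hs3 T N U
            refine ⟨X₀, fun X hX => le_trans (le_of_eq ?_) (hX₀ X hX)⟩
            congr!
        intro U
        obtain ⟨X₀, hX₀⟩ := h3 U
        refine ⟨X₀, fun X hX => le_trans ?_ (hX₀ X hX)⟩
        have hsub : {k : ℤ | k ∈ Set.Icc (-(X : ℤ)) X ∧ ¬ (RealCond K f (fun _ => 1) k →
            WeakApproximation K f (fun _ => 1) T N k)} ⊆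
            {k : ℤ | k ∈ Set.Icc (-(X : ℤ)) X ∧ ¬ WeakApproximation K f (fun _ => 1) T N k} :=
          fun k hk => ⟨hk.1, fun h => hk.2 fun _ => h⟩
        have hfin : {k : ℤ | k ∈ Set.Icc (-(X : ℤ)) X ∧ ¬ WeakApproximation K f (fun _ => 1) T N k}.Finite :=
          (Set.finite_Icc _ _).subset fun k hk => hk.1
        exact Nat.cast_le.2 (Set.ncard_le_ncard hsub hfin)
      · obtain ⟨T₀, h⟩ := h1 c hc.2.2
        refine ⟨T₀, fun h => absurd h hs, fun _ T hT N => AlmostAlways.of_card fun U => ?_⟩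
        obtain ⟨X₀, hX₀⟩ := h T hT N U
        refine ⟨X₀, fun X hX => le_trans (le_of_eq ?_) (hX₀ X hX)⟩
        congr!
    · exact ⟨∅, fun _ => rfl, fun h => absurd h hc⟩
  choose T₀ hT₁ hT₀ using h0
  refine ⟨fun {r s} => T₀ r s, hT₁, randomAndMetric _ ?_⟩
  rintro ⟨x, hx, hT⟩
  exact hT₀ x.r x.s x.K x.f x.c ⟨hx.fields, hx.degree, hx.nonzero⟩ x.T hT x.N

end Pool.Agent.T63.WA
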